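import Mathlib

set_option autoImplicit false

namespace Pool.Agent.Results.MP_5bb8bc_co.Counter

open Finset

/-- A binary matroid: a finite ground set `E` and a subspace `C` of characteristic vectors of
subsets of `E` (the cycles). -/
structure BinMat (α : Type) where
  E : Finset α
  C : Submodule (ZMod 2) (α → ZMod 2)
  supp : ∀ x ∈ C, ∀ a, a ∉ E → x a = 0

variable {α β : Type} [DecidableEq α] [DecidableEq β]

/-- Intersection with `A`, as a linear map on characteristic vectors. -/
def res (A : Finset α) : (α → ZMod 2) →ₗ[ZMod 2] (α → ZMod 2) where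
  toFun x := fun a => if a ∈ A then x a else 0
  map_add' x y := by funext a; by_cases h : a ∈ A <;> simp [h]
  map_smul' c x := by funext a; by_cases h : a ∈ A <;> simp [h]

/-- The subsets of `A`. -/
def within (A : Finset α) : Submodule (ZMod 2) (α → ZMod 2) where
  carrier := {x | ∀ a, a ∉ A → x a = 0}
  add_mem' := by intro x y hx hy a ha; simp [hx a ha, hy a ha]
  zero_mem' := by intro a _; rfl
  smul_mem' := by intro c x hx a ha; simp [hx a ha]

/-- The cocycle space: subsets of `E` meeting every cycle in an even number of elements. -/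
def BinMat.cocycles (M : BinMat α) : Submodule (ZMod 2) (α → ZMod 2) where
  carrier := {z | (∀ a, a ∉ M.E → z a = 0) ∧ ∀ y ∈ M.C, ∑ a ∈ M.E, z a * y a = 0}
  add_mem' := by
    intro x y hx hy
    refine ⟨fun a ha => by simp [hx.1 a ha, hy.1 a ha], fun z hz => ?_⟩
    simp [add_mul, Finset.sum_add_distrib, hx.2 z hz, hy.2 z hz]
  zero_mem' := ⟨fun _ _ => rfl, fun _ _ => by simp⟩
  smul_mem' := by
    intro c x hx
    refine ⟨fun a ha => by simp [hx.1 a ha], fun z hz => ?_⟩
    simp [mul_assoc, ← Finset.mul_sum, hx.2 z hz]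

/-- The dual binary matroid. -/
def BinMat.dual (M : BinMat α) : BinMat α := ⟨M.E, M.cocycles, fun _ hx => hx.1⟩

/-- The reduction `M | A`: cycles contained in `A`. -/
def BinMat.reduce (M : BinMat α) (A : Finset α) : BinMat α :=
  ⟨A, M.C ⊓ within A, fun _ hx => hx.2⟩

/-- The contraction `M · A`: traces of cycles on `A`. -/
def BinMat.contract (M : BinMat α) (A : Finset α) : BinMat α :=
  ⟨A, M.C.map (res A), by
    rintro x ⟨y, -, rfl⟩ a ha
    simp [res, ha]⟩

/-- `N` arises from `M` by one reduction or contraction. -/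
def Step (M N : BinMat α) : Prop := ∃ A ⊆ M.E, N = M.reduce A ∨ N = M.contract A

/-- `N` is a minor of `M`: finitely many reductions and contractions. -/
def IsMinor (N M : BinMat α) : Prop := Relation.ReflTransGen Step M N

/-- Every element lies in some cycle. -/
def BinMat.Bridgeless (M : BinMat α) : Prop := ∀ a ∈ M.E, ∃ x ∈ M.C, x a ≠ 0

/-- The bicycle space of `A`: cycles whose intersection with `A` is a cocycle. -/
def BinMat.bicycle (M : BinMat α) (A : Finset α) : Submodule (ZMod 2) (α → ZMod 2) :=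
  M.C ⊓ M.cocycles.comap (res A)

/-- The Penrose polynomial. -/
noncomputable def BinMat.penrose (M : BinMat α) : Polynomial ℤ :=
  ∑ A ∈ M.E.powerset, (-1) ^ A.card * Polynomial.X ^ Module.finrank (ZMod 2) (M.bicycle A)

/-- Strictly alternating coefficients, `r` being the dimension of the cycle space. -/
def BinMat.Alternating (M : BinMat α) : Prop :=
  ∀ i ≤ Module.finrank (ZMod 2) M.C,
    0 < (-1) ^ (Module.finrank (ZMod 2) M.C - i) * M.penrose.coeff i

/-- Bridgeless, not alternating, and every bridgeless proper minor is alternating. -/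
def BinMat.MinNonAlt (M : BinMat α) : Prop :=
  M.Bridgeless ∧ ¬ M.Alternating ∧
    ∀ N, IsMinor N M → N.E.card < M.E.card → N.Bridgeless → N.Alternating

/-- Isomorphism: a bijection of ground sets under which cycles correspond to cycles. -/
def Iso (M : BinMat α) (N : BinMat β) : Prop :=
  ∃ g : β → α, Set.BijOn g N.E M.E ∧ ∀ x : α → ZMod 2, (∀ a, a ∉ M.E → x a = 0) →
    (x ∈ M.C ↔ (fun b => if b ∈ N.E then x (g b) else 0) ∈ N.C)

/-- The cycle matroid of the graph whose edge `a` has ends `u a`, `w a`: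
cycles are the edge sets with all degrees even. -/
def cycleMat {V : Type} [DecidableEq V] [Fintype α] (u w : α → V) : BinMat α where
  E := univ
  C :=
    { carrier := {x | ∀ v, ∑ a, x a * ((if u a = v then 1 else 0) + (if w a = v then 1 else 0)) = 0}
      add_mem' := by
        intro x y hx hy v
        simp only [Pi.add_apply, add_mul, Finset.sum_add_distrib]
        rw [hx v, hy v, add_zero]
      zero_mem' := by intro v; simp
      smul_mem' := by
        intro c x hx v
        simp only [Pi.smul_apply, smul_eq_mul, mul_assoc, ← Finset.mul_sum]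
        rw [hx v, mul_zero] }
  supp := fun _ _ a ha => absurd (mem_univ a) ha

/-- The seven lines `{i, i+1, i+3}` of the Fano plane. -/
def fanoLine (i : Fin 7) : Fin 7 → ZMod 2 := fun p => if p = i ∨ p = i + 1 ∨ p = i + 3 then 1 else 0

/-- The Fano matroid: cycle space spanned by the lines. -/
def fano : BinMat (Fin 7) :=
  ⟨univ, Submodule.span (ZMod 2) (Set.range fanoLine), fun _ _ a ha => absurd (mem_univ a) ha⟩

/-- The cycle matroid of the Petersen graph (outer 5-cycle, spokes, inner pentagram). -/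
def pet : BinMat (Fin 15) :=
  cycleMat (V := Fin 10) ![0,1,2,3,4,0,1,2,3,4,5,6,7,8,9] ![1,2,3,4,0,5,6,7,8,9,7,8,9,5,6]

/-- The cycle matroid of `K₅`. -/
def k5 : BinMat (Fin 10) := cycleMat (V := Fin 5) ![0,0,0,0,1,1,1,2,2,3] ![1,2,3,4,2,3,4,3,4,4]

/-! ### Minors -/

lemma z2 (a : ZMod 2) : a + a = 0 := by revert a; decide

lemma minor_E {N M : BinMat α} (h : IsMinor N M) : N.E ⊆ M.E ∧ (N.E = M.E → N.C = M.C) := by
  unfold IsMinor at h
  induction h with
  | refl => exact ⟨Subset.rfl, fun _ => rfl⟩
  | @tail X Y _ hs ih =>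
    obtain ⟨A, hA, hY⟩ := hs
    have hE : Y.E = A := by rcases hY with rfl | rfl <;> rfl
    refine ⟨hE ▸ hA.trans ih.1, fun he => ?_⟩
    have h1 : X.E = M.E := Subset.antisymm ih.1 (by rw [← he, hE]; exact hA)
    have h2 : A = X.E := by rw [← hE, he, h1]
    rw [← ih.2 h1]
    rcases hY with rfl | rfl
    · subst h2
      exact inf_eq_left.mpr (fun x hx => X.supp x hx)
    · subst h2
      have : ∀ x ∈ X.C, res X.E x = x := by
        intro x hx
        funext a
        by_cases ha : a ∈ X.E
        · simp [res, ha]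
        · simp [res, ha, X.supp x hx a ha]
      ext x
      constructor
      · rintro ⟨y, hy, rfl⟩
        rw [this y hy]; exact hy
      · intro hx
        exact ⟨x, hx, this x hx⟩

/-- Graphic, phrased with potentials on ten vertices. -/
def Gr [Fintype α] (M : BinMat α) : Prop :=
  ∃ u w : α → Fin 10, ∀ x, x ∈ M.C ↔ (∀ a, a ∉ M.E → x a = 0) ∧
    ∀ g : Fin 10 → ZMod 2, ∑ a, x a * (g (u a) + g (w a)) = 0

lemma gr_erase [Fintype α] (M : BinMat α) (hM : Gr M) (e : α) (he : e ∈ M.E) :
    Gr (M.contract (M.E.erase e)) := by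
  obtain ⟨u, w, h⟩ := hM
  let φ : Fin 10 → Fin 10 := fun v => if v = w e then u e else v
  have hφ : φ (u e) = φ (w e) := by simp [φ]
  refine ⟨φ ∘ u, φ ∘ w, fun x => ⟨?_, ?_⟩⟩
  · rintro ⟨y, hy, rfl⟩
    refine ⟨fun a ha => by
      have ha' : a ∉ M.E.erase e := ha
      simp only [res, LinearMap.coe_mk, AddHom.coe_mk, ha', if_false], fun g => ?_⟩
    rw [← ((h y).mp hy).2 (g ∘ φ)]
    refine Finset.sum_congr rfl (fun a _ => ?_)
    by_cases hae : a = e
    · subst hae
      simp [res, hφ, z2]
    · by_cases ha : a ∈ M.E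
      · simp [res, hae, ha]
      · simp [res, ha, M.supp y hy a ha]
  · rintro ⟨h1, h2⟩
    have hxe : x e = 0 := h1 e (notMem_erase e M.E)
    let χ : Fin 10 → ZMod 2 := fun v => if v = w e then 1 else 0
    let t : ZMod 2 := ∑ a, x a * (χ (u a) + χ (w a))
    refine ⟨x + Pi.single e t, (h _).mpr ⟨fun a ha => ?_, fun g => ?_⟩, ?_⟩
    · have hae : a ≠ e := fun h' => ha (h' ▸ he)
      have : a ∉ M.E.erase e := fun h' => ha (mem_of_mem_erase h')
      simp [h1 a this, hae]
    · have hg : ∀ v, g v = g (φ v) + (g (u e) + g (w e)) * χ v := by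
        intro v
        by_cases hv : v = w e
        · simp only [φ, χ, hv, if_true, mul_one]
          rw [← add_assoc, z2, zero_add]
        · simp [φ, χ, hv]
      have e1 : ∑ a, x a * (g (u a) + g (w a)) =
          ∑ a, x a * (g (φ (u a)) + g (φ (w a))) + (g (u e) + g (w e)) * t := by
        simp only [t, Finset.mul_sum, ← Finset.sum_add_distrib]
        refine Finset.sum_congr rfl (fun a _ => ?_)
        rw [hg (u a), hg (w a)]
        ring
      have e2 : ∑ a, (Pi.single e t : α → ZMod 2) a * (g (u a) + g (w a)) =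
          t * (g (u e) + g (w e)) := by
        rw [Finset.sum_eq_single e]
        · simp
        · intro b _ hb; simp [hb]
        · simp
      simp only [Pi.add_apply, add_mul, Finset.sum_add_distrib]
      have h3 := h2 g
      simp only [Function.comp] at h3
      rw [e1, e2, h3, zero_add, mul_comm, z2]
    · funext a
      by_cases hae : a = e
      · subst hae
        simp [res, hxe]
      · by_cases ha : a ∈ M.E
        · simp [res, hae, ha]
        · have : a ∉ M.E.erase e := fun h' => ha (mem_of_mem_erase h')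
          simp [res, ha, h1 a this]

lemma contract_contract (M : BinMat α) (A B : Finset α) (h : A ⊆ B) :
    (M.contract B).contract A = M.contract A := by
  have : (res A).comp (res B) = res A := by
    apply LinearMap.ext
    intro x
    funext a
    by_cases ha : a ∈ A
    · simp [res, ha, h ha]
    · simp [res, ha]
  simp only [BinMat.contract, ← Submodule.map_comp, this]

lemma gr_contract [Fintype α] (A : Finset α) : ∀ (k : ℕ) (M : BinMat α), Gr M → A ⊆ M.E →
    M.E.card = A.card + k → Gr (M.contract A) := by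
  intro k
  induction k with
  | zero =>
    intro M hM hA hc
    have hE : A = M.E := eq_of_subset_of_card_le hA (by omega)
    have := (minor_E (N := M.contract A) (M := M)
      (Relation.ReflTransGen.single ⟨A, hA, Or.inr rfl⟩)).2 hE
    obtain ⟨u, w, h⟩ := hM
    refine ⟨u, w, fun x => ?_⟩
    rw [this, h x]
    subst hE
    rfl
  | succ k ih =>
    intro M hM hA hc
    obtain ⟨e, he, heA⟩ := exists_mem_notMem_of_card_lt_card (s := A) (t := M.E) (by omega)
    have hsub : A ⊆ M.E.erase e := fun a ha => mem_erase.mpr ⟨fun h => heA (h ▸ ha), hA ha⟩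
    rw [← contract_contract M A _ hsub]
    apply ih _ (gr_erase M hM e he) hsub
    show (M.E.erase e).card = _
    rw [card_erase_of_mem he]
    omega

lemma gr_minor [Fintype α] {N M : BinMat α} (h : IsMinor N M) (hM : Gr M) : Gr N := by
  unfold IsMinor at h
  induction h with
  | refl => exact hM
  | @tail X Y _ hs ih =>
    obtain ⟨A, hA, rfl | rfl⟩ := hs
    · obtain ⟨u, w, h⟩ := ih
      refine ⟨u, w, fun x => ⟨fun hx => ⟨hx.2, ((h x).mp hx.1).2⟩, fun hx => ⟨?_, hx.1⟩⟩⟩
      exact (h x).mpr ⟨fun a ha => hx.1 a (fun h' => ha (hA h')), hx.2⟩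
    · exact gr_contract A (X.E.card - A.card) X ih hA (by have := card_le_card hA; omega)

lemma gr_iso [Fintype α] [Fintype β] {M : BinMat α} {N : BinMat β} (hN : N.E = univ)
    (h : Iso M N) (hM : Gr M) : Gr N := by
  obtain ⟨g, hg, hiso⟩ := h
  obtain ⟨u, w, h⟩ := hM
  have hinj : Function.Injective g := by
    have := hg.injOn
    rw [hN, coe_univ] at this
    exact Set.injOn_univ.mp this
  refine ⟨u ∘ g, w ∘ g, fun y => ?_⟩
  let x : α → ZMod 2 := fun a => ∑ b, if g b = a then y b else 0
  have hx : ∀ b, x (g b) = y b := by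
    intro b
    simp [x, hinj.eq_iff]
  have hsupp : ∀ a, a ∉ M.E → x a = 0 := by
    intro a ha
    apply Finset.sum_eq_zero
    intro b _
    have : g b ≠ a := fun h' => ha (h' ▸ hg.mapsTo (by simp [hN]))
    simp [this]
  have h1 := hiso x hsupp
  have h2 : (fun b => if b ∈ N.E then x (g b) else 0) = y := by
    funext b; simp [hN, hx]
  rw [h2] at h1
  rw [← h1, h x]
  have h3 : ∀ p : Fin 10 → ZMod 2, ∑ a, x a * (p (u a) + p (w a)) =
      ∑ b, y b * (p ((u ∘ g) b) + p ((w ∘ g) b)) := by
    intro p
    simp only [x, Finset.sum_mul]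
    rw [Finset.sum_comm]
    refine Finset.sum_congr rfl (fun b _ => ?_)
    simp [ite_mul]
  simp only [h3, hN, mem_univ, not_true_eq_false, false_implies, implies_true, true_and]
  exact and_iff_right hsupp

lemma not_gr [Fintype β] (N : BinMat β) (hN : N.E = univ) (d : ℕ) (π : Fin d → β)
    (hπ : ∀ x ∈ N.C, (∀ i, x (π i) = 0) → x = 0)
    (hw : ∀ z : β → ZMod 2, (∀ x ∈ N.C, ∑ b, x b * z b = 0) → z ≠ 0 →
      3 ≤ (univ.filter (fun b => z b ≠ 0)).card)
    (hd : d + 2 * Fintype.card β / 3 ≤ Fintype.card β) (hd' : d < Fintype.card β) : ¬ Gr N := by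
  rintro ⟨u, w, h⟩
  let s : Fin 10 → β → ZMod 2 := fun v b => (if u b = v then 1 else 0) + (if w b = v then 1 else 0)
  let T : Finset (Fin 10) := univ.filter (fun v => s v ≠ 0)
  have hT : 3 * T.card ≤ 2 * Fintype.card β := by
    have h1 : ∀ v ∈ T, 3 ≤ (univ.filter (fun b => s v b ≠ 0)).card := by
      intro v hv
      refine hw _ (fun x hx => ?_) (mem_filter.mp hv).2
      exact ((h x).mp hx).2 (fun y => if y = v then 1 else 0)
    have h2 := Finset.card_mul_le_card_mul (s := T) (t := (univ : Finset β))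
      (fun v b => s v b ≠ 0) (m := 3) (n := 2) (fun v hv => h1 v hv) (by
        intro b _
        have : T.bipartiteBelow (fun v b => s v b ≠ 0) b ⊆ {u b, w b} := by
          intro v hv
          have hv' := (mem_bipartiteBelow _).mp hv
          by_contra hc
          simp only [mem_insert, mem_singleton, not_or] at hc
          apply hv'.2
          simp [s, Ne.symm hc.1, Ne.symm hc.2]
        exact (card_le_card this).trans card_le_two)
    rw [card_univ] at h2
    omega
  obtain ⟨v0, hv0⟩ : ∃ v0, (T.erase v0).card + d < Fintype.card β := by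
    rcases T.eq_empty_or_nonempty with hT0 | ⟨v0, hv0⟩
    · exact ⟨0, by simp [hT0, hd']⟩
    · refine ⟨v0, ?_⟩
      have := card_pos.mpr ⟨v0, hv0⟩
      rw [card_erase_of_mem hv0]
      omega
  have key : ∀ x : β → ZMod 2, (∀ v ∈ T.erase v0, ∑ b, x b * s v b = 0) → x ∈ N.C := by
    intro x hx
    refine (h x).mpr ⟨by simp [hN], fun g => ?_⟩
    have e1 : ∀ b, g (u b) + g (w b) = ∑ v, (g v + g v0) * s v b := by
      intro b
      simp only [s, mul_add, Finset.sum_add_distrib, mul_ite, mul_one, mul_zero,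
        Finset.sum_ite_eq, mem_univ, if_true]
      linear_combination (-1 : ZMod 2) * z2 (g v0)
    simp only [e1, Finset.mul_sum]
    rw [Finset.sum_comm]
    refine Finset.sum_eq_zero (fun v _ => ?_)
    have e2 : ∑ b, x b * ((g v + g v0) * s v b) = (g v + g v0) * ∑ b, x b * s v b := by
      rw [Finset.mul_sum]
      exact Finset.sum_congr rfl (fun b _ => by ring)
    rw [e2]
    by_cases hv : v = v0
    · rw [hv, z2, zero_mul]
    · by_cases hvT : v ∈ T
      · rw [hx v (mem_erase.mpr ⟨hv, hvT⟩), mul_zero]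
      · have : s v = 0 := by simpa [T] using hvT
        simp [this]
  let F : (β → ZMod 2) → ((T.erase v0) → ZMod 2) × (Fin d → ZMod 2) :=
    fun x => (fun v => ∑ b, x b * s v b, fun i => x (π i))
  have hF : Function.Injective F := by
    intro x y hxy
    have h1 := congrArg Prod.fst hxy
    have h2 := congrArg Prod.snd hxy
    have h3 : x - y ∈ N.C := key _ (fun v hv => by
      have := congrFun h1 ⟨v, hv⟩
      simp only [F] at this
      simp only [Pi.sub_apply, sub_mul, Finset.sum_sub_distrib, this, sub_self])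
    exact sub_eq_zero.mp (hπ _ h3 (fun i => by
      have := congrFun h2 i
      simp only [F] at this
      simp [this]))
  have := Fintype.card_le_of_injective F hF
  simp only [Fintype.card_prod, Fintype.card_fun, ZMod.card, Fintype.card_coe, Fintype.card_fin,
    ← pow_add] at this
  have := (Nat.pow_le_pow_iff_right (by norm_num)).mp this
  omega

/-! ### The excluded matroids -/

lemma gr_cycleMat [Fintype α] (u w : α → Fin 10) : Gr (cycleMat u w) := by
  refine ⟨u, w, fun x => ⟨fun hx => ⟨fun a ha => absurd (mem_univ a) ha, fun g => ?_⟩,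
    fun hx v => hx.2 (fun y => if y = v then 1 else 0)⟩⟩
  have e1 : ∀ b, g (u b) + g (w b) =
      ∑ v, g v * ((if u b = v then 1 else 0) + (if w b = v then 1 else 0)) := by
    intro b
    simp only [mul_add, Finset.sum_add_distrib, mul_ite, mul_one, mul_zero,
      Finset.sum_ite_eq, mem_univ, if_true]
  simp only [e1, Finset.mul_sum]
  rw [Finset.sum_comm]
  refine Finset.sum_eq_zero (fun v _ => ?_)
  simp only [mul_left_comm _ (g v), ← Finset.mul_sum]
  rw [hx v, mul_zero]

lemma fano_a : ∀ x : Fin 7 → ZMod 2, (∀ i, ∑ a, x a * fanoLine i a = 0) →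
    (∀ i : Fin 3, x (![0, 1, 2] i) = 0) → x = 0 := by decide +kernel

lemma fano_b : ∀ z : Fin 7 → ZMod 2, (∀ i, ∑ b, (1 + fanoLine i b) * z b = 0) → z ≠ 0 →
    3 ≤ (univ.filter (fun b => z b ≠ 0)).card := by decide +kernel

lemma fano_c : ∀ i j, ∑ a, (1 + fanoLine i a) * fanoLine j a = 0 := by decide +kernel

lemma not_gr_fano : ¬ Gr fano.dual := by
  apply not_gr _ rfl 3 ![0, 1, 2]
  · intro x hx
    exact fano_a x (fun i => hx.2 _ (Submodule.subset_span ⟨i, rfl⟩))
  · intro z hz
    refine fano_b z (fun i => hz (fun b => 1 + fanoLine i b)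
      ⟨fun a ha => absurd (mem_univ a) ha, fun y hy => ?_⟩)
    show ∑ a, (1 + fanoLine i a) * y a = 0
    induction hy using Submodule.span_induction with
    | mem y hy => obtain ⟨j, rfl⟩ := hy; exact fano_c i j
    | zero => simp
    | add y1 y2 _ _ h1 h2 => simp only [Pi.add_apply, mul_add, Finset.sum_add_distrib, h1, h2, add_zero]
    | smul c y _ h1 =>
      simp only [Pi.smul_apply, smul_eq_mul, mul_left_comm _ c, ← Finset.mul_sum, h1, mul_zero]
  · simp
  · simp

/-- The six triangles of `K₅` through vertex `0`. -/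
def tri : Fin 6 → Fin 10 → ZMod 2 :=
  ![![1,1,0,0,1,0,0,0,0,0], ![1,0,1,0,0,1,0,0,0,0], ![1,0,0,1,0,0,1,0,0,0],
    ![0,1,1,0,0,0,0,1,0,0], ![0,1,0,1,0,0,0,0,1,0], ![0,0,1,1,0,0,0,0,0,1]]

/-- Vertex stars of `K₅`. -/
def star5 (v : Fin 5) (a : Fin 10) : ZMod 2 :=
  (if (![0,0,0,0,1,1,1,2,2,3] : Fin 10 → Fin 5) a = v then 1 else 0) +
    (if (![1,2,3,4,2,3,4,3,4,4] : Fin 10 → Fin 5) a = v then 1 else 0)

lemma k5_a : ∀ x : Fin 10 → ZMod 2, (∀ i, ∑ a, x a * tri i a = 0) →
    (∀ i : Fin 4, x (![0, 1, 2, 3] i) = 0) → x = 0 := by decide +kernel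

lemma k5_b : ∀ z : Fin 10 → ZMod 2, (∀ v, ∑ b, star5 v b * z b = 0) → z ≠ 0 →
    3 ≤ (univ.filter (fun b => z b ≠ 0)).card := by decide +kernel

lemma k5_c : ∀ i v, ∑ a, tri i a * star5 v a = 0 := by decide +kernel

lemma not_gr_k5 : ¬ Gr k5.dual := by
  apply not_gr _ rfl 4 ![0, 1, 2, 3]
  · intro x hx
    exact k5_a x (fun i => hx.2 _ (fun v => k5_c i v))
  · intro z hz
    refine k5_b z (fun v => hz (star5 v) ⟨fun a ha => absurd (mem_univ a) ha, fun y hy => ?_⟩)
    show ∑ a, star5 v a * y a = 0
    simp only [mul_comm (star5 v _)]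
    exact hy v
  · simp
  · simp

/-! ### The counterexample graph -/

/-- First ends of the edges of the cubic graph. -/
def gu : Fin 15 → Fin 10 := ![0,4,0,1,2,4,2,7,6,1,3,1,5,0,3]
/-- Second ends of the edges of the cubic graph. -/
def gw : Fin 15 → Fin 10 := ![2,5,3,9,5,6,8,9,9,4,8,8,7,6,7]
/-- The cycle matroid of a cubic graph on ten vertices of girth four. -/
def M0 : BinMat (Fin 15) := cycleMat gu gw
/-- Fundamental cycles. -/
def bas : Fin 6 → Fin 15 → ZMod 2 :=
  ![![1,0,0,0,0,0,1,1,1,0,1,0,0,1,1], ![0,1,0,0,0,0,0,0,0,1,1,1,1,0,1],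
    ![0,0,1,0,0,0,0,1,1,0,0,0,0,1,1], ![0,0,0,1,0,0,0,1,0,0,1,1,0,0,1],
    ![0,0,0,0,1,0,1,0,0,0,1,0,1,0,1], ![0,0,0,0,0,1,0,1,1,1,1,1,0,0,1]]
/-- Linear combinations of the fundamental cycles. -/
def L : (Fin 6 → ZMod 2) →ₗ[ZMod 2] (Fin 15 → ZMod 2) where
  toFun μ := fun e => ∑ i, μ i * bas i e
  map_add' x y := by funext e; simp [add_mul, Finset.sum_add_distrib]
  map_smul' c x := by funext e; simp [Finset.mul_sum, mul_assoc]

lemma L_apply (μ : Fin 6 → ZMod 2) (e : Fin 15) : L μ e = ∑ i, μ i * bas i e := rfl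

lemma L_mem' : ∀ (μ : Fin 6 → ZMod 2) (v : Fin 10), ∑ a, (∑ i, μ i * bas i a) *
    ((if gu a = v then 1 else 0) + (if gw a = v then 1 else 0)) = 0 := by decide +kernel

lemma L_mem (μ : Fin 6 → ZMod 2) : L μ ∈ M0.C := fun v => L_mem' μ v

lemma L_cast : ∀ (μ : Fin 6 → ZMod 2) (j : Fin 6),
    ∑ i, μ i * bas i (Fin.castLE (by norm_num) j) = μ j := by decide +kernel

lemma tree (x : Fin 15 → ZMod 2) (hx : x ∈ M0.C)
    (h : ∀ j : Fin 6, x (Fin.castLE (by norm_num) j) = 0) : x = 0 := by
  have a0 : x 0 = 0 := h 0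
  have a1 : x 1 = 0 := h 1
  have a2 : x 2 = 0 := h 2
  have a3 : x 3 = 0 := h 3
  have a4 : x 4 = 0 := h 4
  have a5 : x 5 = 0 := h 5
  have b0 := hx 0
  have b1 := hx 1
  have b2 := hx 2
  have b3 := hx 3
  have b4 := hx 4
  have b5 := hx 5
  have b6 := hx 6
  have b8 := hx 8
  have b9 := hx 9
  simp [Fin.sum_univ_succ, gu, gw, a0, a1, a2, a3, a4, a5] at b0 b1 b2 b3 b4 b5 b6 b8 b9
  funext e
  fin_cases e <;> simp_all

lemma range_L : LinearMap.range L = M0.C := by
  apply le_antisymm
  · rintro _ ⟨μ, rfl⟩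
    exact L_mem μ
  · intro x hx
    refine ⟨fun j => x (Fin.castLE (by norm_num) j), ?_⟩
    symm
    rw [← sub_eq_zero]
    apply tree _ (M0.C.sub_mem hx (L_mem _))
    intro j
    rw [Pi.sub_apply, L_apply, L_cast, sub_self]

lemma L_inj : Function.Injective L := by
  intro x y h
  funext j
  rw [← L_cast x j, ← L_cast y j]
  exact congrFun h _

lemma rank_M0 : Module.finrank (ZMod 2) M0.C = 6 := by
  rw [← range_L, LinearMap.finrank_range_of_inj L_inj]
  simp

/-- A bit of a natural number, as an element of `ZMod 2`. -/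
def bit (w i : ℕ) : ZMod 2 := if w.testBit i then 1 else 0

lemma bit_xor (w y i : ℕ) : bit (w ^^^ y) i = bit w i + bit y i := by
  unfold bit
  rw [Nat.testBit_xor]
  cases w.testBit i <;> cases y.testBit i <;> decide

/-- Packed tables of the rank-one forms of the edges. -/
def W : Fin 15 → ℕ := ![12297829382473034410, 272225893536750770755942290686446927872, 5907860456834523071525183111799273367189629023089191813120, 115341536360906404773646825361731961614378031058610201523653457246081588920320, 2135954443842604378477067796439736533550875009592081193862664099595489142680778291053332445265920, 39402006187220484748318754053700330223871391507279186711275168909295366413949519107060327022604841428366125244088320, 712006542666405262027130479141578434935797355034616176774959715572556393600535362667436620229290, 13951683130583452111905993208690443778933252267508938763785371833411592258843361124945786380900935969106804516496730, 25495415771439370529556005214931639615027368407186547110383436820993717179956594531277450268428401461639037945797210,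 7880401244783292519123190019157964843824939147069203615911369759934035352870491795110872734310701691736041088614400, 23610421368376639076695380855614823713310278718249175389301228096256662350261631401935513642861939384392564690491750, 31429615832129366091129214511890004349632940047652245260001957430849725719131680357064615402046343066264003370024960, 427216962431165438737143015681946815212781824123123173357486898356684610425900825990786260664320, 2215447671312946151821943666924727512702621499213873830490, 16251516389215416543884348751063262657742449856100559755741050156890060508620853129264494378034500825274648799832470]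

/-- Binary index of a coefficient vector. -/
def idx (μ : Fin 6 → ZMod 2) : ℕ := ∑ i, (μ i).val * 2 ^ (i : ℕ)

lemma W_spec : ∀ (e : Fin 15) (μ : Fin 6 → ZMod 2) (j : Fin 6),
    bit (W e) (64 * j + idx μ) = (∑ i, μ i * bas i e) * bas j e := by decide +kernel

lemma idx_a : ∀ μ : Fin 6 → ZMod 2, μ ≠ 0 → (2 ^ 64 - 2).testBit (idx μ) = true := by
  decide +kernel

lemma idx_b : ∀ k : Fin 64, (2 ^ 64 - 2).testBit k = true → ∃ μ : Fin 6 → ZMod 2, μ ≠ 0 ∧ idx μ = k := by
  decide +kernel

/-- Non-degeneracy of a packed form. -/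
def P (f : ℕ → ZMod 2) : Prop := ∀ μ : Fin 6 → ZMod 2, μ ≠ 0 → ∃ j : Fin 6, f (64 * j + idx μ) ≠ 0

/-- Union of the six planes. -/
def pl (w : ℕ) : ℕ := w ||| w >>> 64 ||| w >>> 128 ||| w >>> 192 ||| w >>> 256 ||| w >>> 320

lemma pl_bit (w k : ℕ) : (pl w).testBit k = true ↔ ∃ j : Fin 6, bit w (64 * j + k) ≠ 0 := by
  have : ∀ i, bit w i ≠ 0 ↔ w.testBit i = true := by
    intro i
    unfold bit
    cases w.testBit i <;> decide
  simp only [this, pl, Nat.testBit_or, Nat.testBit_shiftRight, Bool.or_eq_true, Fin.exists_fin_succ,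
    IsEmpty.exists_iff, or_false]
  simp [or_assoc]

lemma chk_iff (w : ℕ) : pl w &&& (2 ^ 64 - 2) = 2 ^ 64 - 2 ↔ P (bit w) := by
  constructor
  · intro h μ hμ
    rw [← pl_bit]
    have := idx_a μ hμ
    rw [← h, Nat.testBit_and, Bool.and_eq_true] at this
    exact this.1
  · intro h
    apply Nat.eq_of_testBit_eq
    intro k
    rw [Nat.testBit_and]
    cases hk : (2 ^ 64 - 2).testBit k
    · simp
    · have hlt : k < 64 := by
        by_contra hc
        have : (2 ^ 64 - 2 : ℕ) < 2 ^ k :=
          lt_of_lt_of_le (by norm_num) (Nat.pow_le_pow_right (by norm_num) (not_lt.mp hc))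
        rw [Nat.testBit_lt_two_pow this] at hk
        exact absurd hk (by simp)
      obtain ⟨μ, h1, h2⟩ := idx_b ⟨k, hlt⟩ hk
      have h3 := h μ h1
      rw [h2] at h3
      simpa using (pl_bit w k).mpr h3

/-- The signed count, by recursion over the edges. -/
def F : List (Fin 15) → ℕ → ℤ
  | [], w => if pl w &&& (2 ^ 64 - 2) = 2 ^ 64 - 2 then 1 else 0
  | e :: l, w => F l w - F l (w ^^^ W e)

lemma F_val : F (List.finRange 15) 0 = -128 := by decide +kernel

open Classical in
lemma F_spec (l : List (Fin 15)) (hl : l.Nodup) : ∀ w, F l w = ∑ A ∈ l.toFinset.powerset,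
    (-1) ^ A.card * (if P (fun i => bit w i + ∑ e ∈ A, bit (W e) i) then 1 else 0) := by
  induction l with
  | nil =>
    intro w
    simp only [F, chk_iff]
    simp
  | cons e l ih =>
    intro w
    rw [List.nodup_cons] at hl
    have he : e ∉ l.toFinset := by simpa using hl.1
    rw [F, ih hl.2, ih hl.2, List.toFinset_cons, Finset.sum_powerset_insert he, sub_eq_add_neg,
      ← Finset.sum_neg_distrib]
    congr 1
    refine Finset.sum_congr rfl (fun A hA => ?_)
    have heA : e ∉ A := fun h => he (mem_powerset.mp hA h)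
    simp only [card_insert_of_notMem heA, Finset.sum_insert heA, bit_xor, add_assoc, pow_succ]
    ring

lemma bic (A : Finset (Fin 15)) : Module.finrank (ZMod 2) (M0.bicycle A) = 0 ↔
    P (fun i => bit 0 i + ∑ e ∈ A, bit (W e) i) := by
  have hb : ∀ i, bit 0 i = 0 := by intro i; simp [bit]
  have hs : ∀ (x y : Fin 15 → ZMod 2), ∑ a ∈ M0.E, res A x a * y a = ∑ a ∈ A, x a * y a := by
    intro x y
    show ∑ a, (if a ∈ A then x a else 0) * y a = _
    simp [ite_mul]
  rw [Submodule.finrank_eq_zero, Submodule.eq_bot_iff]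
  simp only [P, hb, zero_add, W_spec]
  constructor
  · intro h μ hμ
    by_contra hc
    push Not at hc
    apply hμ
    apply L_inj
    rw [map_zero]
    refine h _ ⟨L_mem μ, fun a ha => absurd (mem_univ a) ha, fun y hy => ?_⟩
    rw [← range_L] at hy
    obtain ⟨ν, rfl⟩ := hy
    rw [hs]
    simp only [L_apply ν, Finset.mul_sum]
    rw [Finset.sum_comm]
    refine Finset.sum_eq_zero (fun j _ => ?_)
    simp only [mul_left_comm _ (ν j), ← Finset.mul_sum]
    rw [show ∑ a ∈ A, L μ a * bas j a = 0 from hc j, mul_zero]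
  · rintro h x ⟨hx, hx2⟩
    rw [← range_L] at hx
    obtain ⟨μ, rfl⟩ := hx
    by_contra hc
    obtain ⟨j, hj⟩ := h μ (by rintro rfl; exact hc (map_zero _))
    apply hj
    have hbj : bas j ∈ M0.C := by
      have : bas j = L (Pi.single j 1) := by
        funext e
        rw [L_apply, Finset.sum_eq_single j]
        · simp
        · intro b _ hb; simp [hb]
        · simp
      rw [this]; exact L_mem _
    have := hx2.2 _ hbj
    rw [hs] at this
    exact this

lemma coeff0 : M0.penrose.coeff 0 = -128 := by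
  rw [← F_val, F_spec _ (List.nodup_finRange 15), List.toFinset_finRange, BinMat.penrose,
    Polynomial.finsetSum_coeff]
  refine Finset.sum_congr rfl (fun A _ => ?_)
  have : ((-1 : Polynomial ℤ) ^ A.card) = Polynomial.C ((-1) ^ A.card) := by simp
  rw [this, Polynomial.coeff_C_mul, Polynomial.coeff_X_pow]
  congr 1
  simp only [← bic, eq_comm]

lemma not_alt : ¬ M0.Alternating := by
  intro h
  have := h 0 (Nat.zero_le _)
  rw [rank_M0, coeff0] at this
  norm_num at this

lemma br' : ∀ a : Fin 15, ∃ μ : Fin 6 → ZMod 2, ∑ i, μ i * bas i a ≠ 0 := by decide +kernel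

lemma bridgeless : M0.Bridgeless := fun a _ => by
  obtain ⟨μ, h⟩ := br' a
  exact ⟨L μ, L_mem μ, h⟩

/-- Vertex stars of the Petersen graph. -/
def starP (v : Fin 10) (a : Fin 15) : ZMod 2 :=
  (if (![0,1,2,3,4,0,1,2,3,4,5,6,7,8,9] : Fin 15 → Fin 10) a = v then 1 else 0) +
    (if (![1,2,3,4,0,5,6,7,8,9,7,8,9,5,6] : Fin 15 → Fin 10) a = v then 1 else 0)

set_option synthInstance.maxSize 1000 in
lemma pet4 : ∀ a b : Fin 15, a ≠ b → ∀ c : Fin 15, a ≠ c → ∀ d : Fin 15, a ≠ d →
    ∃ v, starP v a + starP v b + starP v c + starP v d ≠ 0 := by decide +kernel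

/-- A four-cycle of the cubic graph. -/
def c4 : Fin 15 → ZMod 2 := fun a =>
  (if a = 0 then 1 else 0) + (if a = 2 then 1 else 0) + (if a = 6 then 1 else 0) +
    (if a = 10 then 1 else 0)

lemma c4_mem : ∀ v : Fin 10, ∑ a, c4 a *
    ((if gu a = v then 1 else 0) + (if gw a = v then 1 else 0)) = 0 := by decide +kernel

lemma not_pet (N : BinMat (Fin 15)) (hN : IsMinor N M0) : ¬ Iso N pet := by
  rintro ⟨g, hg, h⟩
  have hinj : Function.Injective g := by
    have := hg.injOn
    rw [show pet.E = univ from rfl, coe_univ] at this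
    exact Set.injOn_univ.mp this
  have hsurj : Function.Surjective g := Finite.surjective_of_injective hinj
  have hE : N.E = univ := by
    rw [eq_univ_iff_forall]
    intro a
    obtain ⟨b, rfl⟩ := hsurj a
    exact hg.mapsTo (mem_univ b)
  have hC := (minor_E hN).2 hE
  have h1 := (h c4 (by simp [hE])).mp (by rw [hC]; exact c4_mem)
  obtain ⟨a, ha⟩ := hsurj 0
  obtain ⟨b, hb⟩ := hsurj 2
  obtain ⟨c, hc⟩ := hsurj 6
  obtain ⟨d, hd⟩ := hsurj 10
  obtain ⟨v, hv⟩ := pet4 a b (by rintro rfl; rw [ha] at hb; exact absurd hb (by decide))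
    c (by rintro rfl; rw [ha] at hc; exact absurd hc (by decide))
    d (by rintro rfl; rw [ha] at hd; exact absurd hd (by decide))
  apply hv
  have h2 : ∑ e, (if e ∈ (univ : Finset (Fin 15)) then c4 (g e) else 0) * starP v e = 0 := h1 v
  simp only [mem_univ, if_true, c4, ← ha, ← hb, ← hc, ← hd, hinj.eq_iff, add_mul, ite_mul, one_mul,
    zero_mul, Finset.sum_add_distrib, Finset.sum_ite_eq', if_true] at h2
  exact h2

/-- There is a minimal non-alternating bridgeless binary matroid that is isomorphic to none of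
`F*`, `Pet`, `K₅*`. -/
theorem result : ∃ M : BinMat (Fin 15), M.MinNonAlt ∧
    ¬ Iso M fano.dual ∧ ¬ Iso M pet ∧ ¬ Iso M k5.dual := by
  classical
  have hex : ∃ k, ∃ N : BinMat (Fin 15), IsMinor N M0 ∧ N.Bridgeless ∧ ¬ N.Alternating ∧
      N.E.card = k := ⟨_, M0, Relation.ReflTransGen.refl, bridgeless, not_alt, rfl⟩
  obtain ⟨N, h1, h2, h3, h4⟩ := Nat.find_spec hex
  have hg : Gr N := gr_minor h1 (gr_cycleMat gu gw)
  refine ⟨N, ⟨h2, h3, fun X hX hlt hb => ?_⟩, fun h => not_gr_fano (gr_iso rfl h hg),
    not_pet N h1, fun h => not_gr_k5 (gr_iso rfl h hg)⟩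
  by_contra hc
  exact Nat.find_min hex (h4 ▸ hlt) ⟨X, Relation.ReflTransGen.trans h1 hX, hb, hc, rfl⟩

end Pool.Agent.Results.MP_5bb8bc_co.Counter
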